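import Pool.Agent.T2.RealT2

/-!
# Linear independence of `1`, `π ^ 2`, `ζ(3)`, `L(2, χ_{-3})` over the rationals, with a measure

The two series are `ζ(3) = ∑ 1 / (n + 1) ^ 3` and
`L(2, χ_{-3}) = ∑ (1 / (3 n + 1) ^ 2 - 1 / (3 n + 2) ^ 2)`, over `n ≥ 0`.
-/

namespace Pool.Agent.Results.MP_48b3e2_nt.FourNumbers

/-- `1`, `π ^ 2`, `ζ(3)`, `L(2, χ_{-3})` are linearly independent over `ℚ`, with a power measure -/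
theorem result :
    LinearIndependent ℚ ![(1 : ℝ), Real.pi ^ 2, ∑' n : ℕ, 1 / ((n : ℝ) + 1) ^ 3,
      ∑' n : ℕ, (1 / (3 * (n : ℝ) + 1) ^ 2 - 1 / (3 * (n : ℝ) + 2) ^ 2)] ∧
    ∃ c : ℝ, 0 < c ∧ ∀ x y z t : ℤ, ¬ (x = 0 ∧ y = 0 ∧ z = 0 ∧ t = 0) →
      c * (max (max |(x : ℝ)| |(y : ℝ)|) (max |(z : ℝ)| |(t : ℝ)|)) ^ (-7250 : ℝ) ≤
        |(x : ℝ) + y * Real.pi ^ 2 + z * (∑' n : ℕ, 1 / ((n : ℝ) + 1) ^ 3) +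
          t * (∑' n : ℕ, (1 / (3 * (n : ℝ) + 1) ^ 2 - 1 / (3 * (n : ℝ) + 2) ^ 2))| :=
  T2.four_numbers

end Pool.Agent.Results.MP_48b3e2_nt.FourNumbers
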