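import Pool.Agent.QS2.M.FinalM

/-!
# A measure of linear independence of `1, √2, ζ(3), √2 ζ(3)`

The four real numbers `1, √2, ζ(3), √2 ζ(3)` are linearly independent over the rationals, and there
is a lower bound for their linear forms with integer coefficients which is a power of the largest
coefficient. In particular `ζ(3)` is not of the form `r + s √2` with rational `r, s`.
-/

namespace Pool.Agent.Results.MP_48b3e2_nt.QuadraticFieldSqrtTwo

/-- there are `k` and `c > 0` such that `|a + b √2 + (m + n √2) ζ(3)| ≥ c / H ^ k` for all integers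
`a, b, m, n` which are not all zero, where `H = max (|a|, |b|, |m|, |n|)`; here `ζ(3)` is the sum of
`1 / (j + 1) ^ 3` over all `j ≥ 0` -/
theorem result : ∃ (k : ℕ) (c : ℝ), 0 < c ∧ ∀ a b m n : ℤ,
    ¬ (a = 0 ∧ b = 0 ∧ m = 0 ∧ n = 0) →
      c / ((max (max |a| |b|) (max |m| |n|) : ℤ) : ℝ) ^ k ≤
        |(a : ℝ) + b * √2 + (m + n * √2) * (∑' j : ℕ, 1 / ((j : ℝ) + 1) ^ 3)| :=
  QS2.measure_zeta3

end Pool.Agent.Results.MP_48b3e2_nt.QuadraticFieldSqrtTwo
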