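import Pool.Agent.Z3D.FinalZ

/-!
# The irrationality exponent of `ζ(3)`

The irrationality exponent (irrationality measure) of `ζ(3)` is at most `4.743`.

The series `∑' n : ℕ, 1 / (n + 1) ^ 3` is the value `ζ(3)` of the Riemann zeta function
(`Pool.Agent.Z3.zeta3_eq`).
-/

namespace Pool.Agent.Results.MP_48b3e2_nt.Zeta3Exponent

open Filter

/-- for all sufficiently large `q` and all integers `p`, `|ζ(3) - p / q| > 1 / q ^ 4.743` -/
theorem result : ∀ᶠ q : ℕ in atTop, ∀ p : ℤ,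
    1 / (q : ℝ) ^ (4.743 : ℝ) < |(∑' n : ℕ, (1 : ℝ) / ((n : ℝ) + 1) ^ 3) - (p : ℝ) / (q : ℝ)| :=
  Pool.Agent.Z3D.zeta3_exponent3

end Pool.Agent.Results.MP_48b3e2_nt.Zeta3Exponent
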